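import Pool.Agent.V11203.Rips.Main

/-!
# Dense subsets whose Vietoris-Rips complexes have the wrong homotopy type

`WithLp 2 (UnitAddCircle × N)` is the product of the circle `ℝ / ℤ` of length `1` and of `N` with
the metric `dist (a, n) (b, n') = √(dist a b ^ 2 + dist n n' ^ 2)`. If `N` is a closed connected
Riemannian manifold, this is the geodesic distance of the Riemannian product `M = S¹ × N`; for
`N = ℝ / ℤ` it is the flat torus `ℝ² / ℤ²`.

`VR Y r` is the set of simplices of `VR_<(Y; r)`, and `Realization` is the geometric realisation of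
a simplicial complex, with the weak topology.

For every such `M` of dimension at least two the scale `r = 1 / 2`, which is less than the diameter
of `M`, has the property that for every `ε > 0` there is a finite `ε`-dense set `X ⊆ M` such that
`VR_<(X; r)` is not homotopy equivalent to `VR_<(M; r)`.
-/

set_option autoImplicit false

open Set Topology

namespace Pool.Agent.Results.MP_bc4532_gt.CircleProducts

open Pool.Agent.V11203.Rips

theorem result (N : Type) [MetricSpace N] [CompactSpace N] [Nontrivial N] :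
    (∃ x y : WithLp 2 (UnitAddCircle × N), 1 / 2 < dist x y) ∧
    ∀ ε : ℝ, 0 < ε → ∃ X : Set (WithLp 2 (UnitAddCircle × N)), X.Finite ∧
      (∀ y, ∃ x ∈ X, dist y x < ε) ∧
      IsEmpty (ContinuousMap.HomotopyEquiv (Realization (VR X (1 / 2)))
        (Realization (VR (WithLp 2 (UnitAddCircle × N)) (1 / 2)))) := by
  refine ⟨?_, fun ε hε => main hε⟩
  obtain ⟨n, n', hn⟩ := exists_pair_ne N
  refine ⟨WithLp.toLp 2 (((0 : ℝ) : UnitAddCircle), n),
    WithLp.toLp 2 (((1 / 2 : ℝ) : UnitAddCircle), n'), ?_⟩
  rw [← not_le, ← sq_le_sq₀ dist_nonneg (by norm_num), not_le, dist_sq]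
  change (1 / 2 : ℝ) ^ 2 < dist ((0 : ℝ) : UnitAddCircle) ((1 / 2 : ℝ) : UnitAddCircle) ^ 2 +
    dist n n' ^ 2
  have h1 : dist ((0 : ℝ) : UnitAddCircle) ((1 / 2 : ℝ) : UnitAddCircle) = 1 / 2 := by
    rw [dist_comm, dist_eq_norm, ← AddCircle.coe_sub, sub_zero, circle_norm_half]
  have h2 : 0 < dist n n' := dist_pos.2 hn
  rw [h1]
  have : 0 < dist n n' ^ 2 := by positivity
  linarith

end Pool.Agent.Results.MP_bc4532_gt.CircleProducts
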